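import Pool.Agent.N728.QG.Def2

set_option autoImplicit false

/-!
# Project QH (helper728), part RGH: rough numbers in dyadic intervals
-/

namespace Pool.Agent.N749.QH

open Finset Pool.Agent.N728.QL Pool.Agent.N728.QG

theorem VW_pos (z : ℕ) : 0 < VW 0 z := by
  unfold VW
  refine Finset.prod_pos fun p hp => ?_
  have h1 := (Finset.mem_filter.1 hp).2.two_le
  have h2 : (2 : ℝ) ≤ p := by exact_mod_cast h1
  have h3 : 1 / (p : ℝ) ≤ 1 / 2 := one_div_le_one_div_of_le (by norm_num) h2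
  linarith

/-- divisors of the product have no small prime factors -/
theorem not_dvd {w y n p : ℕ} (hn : n ∈ (PP w y).divisors) (hp : p.Prime) (hpw : p ≤ w) :
    ¬ p ∣ n := by
  intro h
  have h1 : p ∣ PP w y := h.trans (Nat.dvd_of_mem_divisors hn)
  unfold PP at h1
  obtain ⟨q, hq, h2⟩ := (hp.prime.dvd_finsetProd_iff _).1 h1
  have h3 := Finset.mem_filter.1 hq
  have h4 := (Nat.prime_dvd_prime_iff_eq hp h3.2).1 h2
  have h5 := (Finset.mem_Ioc.1 h3.1).1
  omega

/-- the count by the sieve -/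
theorem count_le {K : ℕ} (h : ∀ (b z1 : ℕ) (Om : ℕ → Finset ℕ) (J1 J2 : ℤ), K ≤ b → 2 ≤ z1 →
      (∀ p : ℕ, p.Prime → p ≤ z1 → Om p ⊆ range p ∧ (Om p).card ≤ 8) → J1 ≤ J2 →
      |((@Finset.filter ℤ (fun t : ℤ => ∀ p : ℕ, p.Prime → p ≤ z1 → (t % p).toNat ∉ Om p)
        (fun _ => Classical.propDecidable _) (Ioc J1 J2)).card : ℝ) -
      ((J2 : ℝ) - J1) * ∏ p ∈ (Ioc 0 z1).filter Nat.Prime, (1 - ((Om p).card : ℝ) / p)| ≤
      (1 / 2 : ℝ) ^ b * (((J2 : ℝ) - J1) *
        ∏ p ∈ (Ioc 0 z1).filter Nat.Prime, (1 - ((Om p).card : ℝ) / p)) +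
      (z1 : ℝ) ^ (K * b)) {w y N z1 : ℕ} (hz : 2 ≤ z1) (hzw : z1 ≤ w) :
    ((((PP w y).divisors.filter (fun n => N < n ∧ n ≤ 2 * N)).card : ℕ) : ℝ) ≤
      2 * (N * VW 0 z1) + (z1 : ℝ) ^ (K * K) := by
  classical
  have h3 := h K z1 (fun _ => {0}) (N : ℤ) (2 * N : ℤ) le_rfl hz
    (fun p hp _ => ⟨by simp [hp.pos], by simp⟩) (by omega)
  have h4 := (abs_le.1 h3).2
  have e1 : ∏ p ∈ (Ioc 0 z1).filter Nat.Prime, (1 - ((({0} : Finset ℕ).card : ℕ) : ℝ) / (p : ℝ)) =
      VW 0 z1 := by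
    unfold VW
    refine Finset.prod_congr rfl fun p _ => ?_
    rw [Finset.card_singleton, Nat.cast_one]
  simp only [e1] at h4
  have e2 : (((2 * N : ℤ) : ℝ) - ((N : ℤ) : ℝ)) = (N : ℝ) := by
    push_cast
    ring
  rw [e2] at h4
  have h5 : ((1 / 2 : ℝ)) ^ K ≤ 1 := pow_le_one₀ (by norm_num) (by norm_num)
  have h6 : 0 ≤ (N : ℝ) * VW 0 z1 := mul_nonneg (Nat.cast_nonneg _) (VW_pos z1).le
  have h7 := mul_le_mul_of_nonneg_right h5 h6
  rw [one_mul] at h7
  have h8 : ((((PP w y).divisors.filter (fun n => N < n ∧ n ≤ 2 * N)).card : ℕ) : ℝ) ≤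
      ((@Finset.filter ℤ (fun t : ℤ => ∀ p : ℕ, p.Prime → p ≤ z1 → (t % p).toNat ∉
        ({0} : Finset ℕ)) (fun _ => Classical.propDecidable _) (Ioc (N : ℤ) (2 * N : ℤ))).card : ℝ) := by
    refine Nat.cast_le.2 (Finset.card_le_card_of_injOn (fun n : ℕ => (n : ℤ)) ?_
      (fun a _ b _ hab => Int.ofNat_injective hab))
    intro n hn
    have hn' := Finset.mem_filter.1 (Finset.mem_coe.1 hn)
    rw [Finset.mem_coe, Finset.mem_filter, Finset.mem_Ioc]
    show ((N : ℤ) < (n : ℤ) ∧ (n : ℤ) ≤ 2 * N) ∧ ∀ p : ℕ, p.Prime → p ≤ z1 →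
      ((n : ℤ) % p).toNat ∉ ({0} : Finset ℕ)
    refine ⟨⟨by exact_mod_cast hn'.2.1, by exact_mod_cast hn'.2.2⟩, fun p hp hpz => ?_⟩
    rw [Finset.mem_singleton]
    intro h9
    apply not_dvd hn'.1 hp (hpz.trans hzw)
    have hp0 : (0 : ℤ) < p := by exact_mod_cast hp.pos
    have h10 := Int.emod_nonneg (n : ℤ) hp0.ne'
    have h11 : (n : ℤ) % p = 0 := by omega
    exact_mod_cast Int.dvd_of_emod_eq_zero h11
  linarith

theorem t_RGH (h1 : Pool.Agent.N728.QL.S_FLC) (h2 : S_MER) : S_RGH := by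
  obtain ⟨K, hK, h⟩ := h1
  obtain ⟨C, hC, -, hM⟩ := h2
  obtain ⟨D, hD⟩ : ∃ D : ℕ, D = 2 * (K * K) := ⟨_, rfl⟩
  have hKK : 1 ≤ K * K := Nat.mul_le_mul hK hK
  have hD1 : 2 ≤ D := by omega
  refine ⟨2 * (C * (2 * D + 1)) + 3 + (D + 1), by positivity, ?_⟩
  intro w y N hw hwN
  have hN1 : 1 ≤ N := by omega
  have hN0 : (0 : ℝ) < N := by exact_mod_cast hN1
  have hw2 : (2 : ℝ) ≤ w := by exact_mod_cast hw
  have hlw : 0 < Real.log w := Real.log_pos (by linarith)
  obtain ⟨A, hA⟩ : ∃ A, A = (PP w y).divisors.filter (fun n => N < n ∧ n ≤ 2 * N) := ⟨_, rfl⟩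
  rw [← hA]
  -- the sum is at most `|A| / N`
  have s1 : ∑ n ∈ A, 1 / (n : ℝ) ≤ (A.card : ℝ) * (1 / N) := by
    rw [← nsmul_eq_mul]
    refine Finset.sum_le_card_nsmul _ _ _ fun n hn => ?_
    rw [hA] at hn
    have h3 := (Finset.mem_filter.1 hn).2.1
    exact one_div_le_one_div_of_le hN0 (by exact_mod_cast h3.le)
  have hlwN : Real.log w ≤ Real.log (2 * N) :=
    Real.log_le_log (by linarith) (by exact_mod_cast hwN)
  rw [le_div_iff₀ hlw]
  by_cases hbig : N < 2 ^ D
  · -- small `N`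
    have c1 : (A.card : ℝ) ≤ N := by
      have : A.card ≤ N := by
        have h3 : A ⊆ Ioc N (2 * N) := by
          intro n hn
          rw [hA] at hn
          exact Finset.mem_Ioc.2 (Finset.mem_filter.1 hn).2
        refine (Finset.card_le_card h3).trans ?_
        rw [Nat.card_Ioc]
        omega
      exact_mod_cast this
    have c2 : ∑ n ∈ A, 1 / (n : ℝ) ≤ 1 := by
      refine s1.trans ?_
      rw [mul_one_div, div_le_one hN0]
      exact c1
    have c3 : Real.log w ≤ D + 1 := by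
      have h3 : (2 * N : ℝ) ≤ 2 ^ (D + 1) := by
        have : 2 * N ≤ 2 ^ (D + 1) := by rw [pow_succ]; omega
        exact_mod_cast this
      have h4 := Real.log_le_log (by positivity) h3
      rw [Real.log_pow] at h4
      have h5 := Real.log_two_lt_d9
      have h6 : (((D + 1 : ℕ) : ℝ)) * Real.log 2 ≤ ((D + 1 : ℕ) : ℝ) * 1 :=
        mul_le_mul_of_nonneg_left (by linarith) (by positivity)
      push_cast at h4 h6
      linarith
    have c4 : (∑ n ∈ A, 1 / (n : ℝ)) * Real.log w ≤ 1 * Real.log w :=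
      mul_le_mul_of_nonneg_right c2 hlw.le
    have c5 : 0 ≤ 2 * (C * (2 * (D : ℝ) + 1)) := by positivity
    linarith
  · -- large `N`
    have hbig' : 2 ^ D ≤ N := by omega
    obtain ⟨m, hm2, hmN, hmm⟩ : ∃ m : ℕ, 2 ≤ m ∧ m ^ D ≤ N ∧ N < (m + 1) ^ D := by
      obtain ⟨m, hm⟩ : ∃ m, m = Nat.findGreatest (fun m => m ^ D ≤ N) N := ⟨_, rfl⟩
      have hD0 : D ≠ 0 := by omega
      have h20 : 2 ≤ N := (show 2 ≤ 2 ^ D from Nat.le_self_pow hD0 2).trans hbig'
      refine ⟨m, ?_, ?_, ?_⟩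
      · rw [hm]
        exact Nat.le_findGreatest h20 hbig'
      · rw [hm]
        exact Nat.findGreatest_spec (P := fun m => m ^ D ≤ N) h20 hbig'
      · by_contra hc
        push Not at hc
        have h3 : m + 1 ≤ N := (Nat.le_self_pow hD0 _).trans hc
        have h4 := Nat.le_findGreatest (P := fun m => m ^ D ≤ N) h3 hc
        omega
    obtain ⟨z1, hz1⟩ : ∃ z1, z1 = min w m := ⟨_, rfl⟩
    have hz2 : 2 ≤ z1 := by rw [hz1]; exact le_min hw hm2
    have hzw : z1 ≤ w := by rw [hz1]; exact min_le_left _ _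
    have hzm : z1 ≤ m := by rw [hz1]; exact min_le_right _ _
    have hz2' : (2 : ℝ) ≤ z1 := by exact_mod_cast hz2
    have hlz : 0 < Real.log z1 := Real.log_pos (by linarith)
    have c1 := count_le h (w := w) (y := y) (N := N) hz2 hzw
    rw [← hA] at c1
    -- comparison of the logarithms
    have c2 : Real.log w ≤ (2 * D + 1) * Real.log z1 := by
      rcases min_cases w m with ⟨h3, h4⟩ | ⟨h3, h4⟩
      · rw [hz1, h3]
        have : (1 : ℝ) * Real.log w ≤ (2 * D + 1) * Real.log w :=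
          mul_le_mul_of_nonneg_right (by linarith [Nat.cast_nonneg (α := ℝ) D]) hlw.le
        linarith
      · rw [hz1, h3]
        have h5 : m + 1 ≤ m ^ 2 := by nlinarith
        have h6 : (m + 1) ^ D ≤ m ^ (2 * D) := by
          rw [pow_mul]
          exact Nat.pow_le_pow_left h5 D
        have h7 : w ≤ m ^ (2 * D + 1) := by
          have h8 : 2 * m ^ (2 * D) ≤ m ^ (2 * D + 1) := by
            rw [pow_succ, mul_comm]
            exact Nat.mul_le_mul_left _ hm2
          omega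
        have h8 : (w : ℝ) ≤ (m : ℝ) ^ (2 * D + 1) := by exact_mod_cast h7
        have h9 := Real.log_le_log (by linarith) h8
        rw [Real.log_pow] at h9
        push_cast at h9
        exact h9
    -- Mertens
    have c3 : VW 0 z1 * Real.log z1 ≤ C := by
      have h3 := (hM z1 hz2).1
      have h4 := mul_le_mul_of_nonneg_left h3 (VW_pos z1).le
      refine h4.trans (le_of_eq ?_)
      rw [mul_comm C, ← mul_assoc, mul_inv_cancel₀ (VW_pos z1).ne', one_mul]
    have c4 : VW 0 z1 * Real.log w ≤ C * (2 * D + 1) := by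
      calc VW 0 z1 * Real.log w ≤ VW 0 z1 * ((2 * D + 1) * Real.log z1) :=
            mul_le_mul_of_nonneg_left c2 (VW_pos z1).le
        _ = (VW 0 z1 * Real.log z1) * (2 * D + 1) := by ring
        _ ≤ C * (2 * D + 1) := mul_le_mul_of_nonneg_right c3 (by positivity)
    -- the error term
    have c5 : (z1 : ℝ) ^ (K * K) ≤ Real.sqrt N := by
      apply Real.le_sqrt_of_sq_le
      rw [← pow_mul]
      have h3 : z1 ^ (K * K * 2) ≤ N := by
        refine (Nat.pow_le_pow_left hzm _).trans ?_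
        rw [show K * K * 2 = D by omega]
        exact hmN
      exact_mod_cast h3
    have c6 : Real.sqrt N * Real.log w ≤ 3 * N := by
      have h3 : Real.log (2 * N) ≤ 3 * Real.sqrt N := by
        have h4 : Real.log (2 * N) = 2 * Real.log (Real.sqrt (2 * N)) := by
          rw [Real.log_sqrt (by positivity)]
          ring
        have h5 : Real.log (Real.sqrt (2 * N)) ≤ Real.sqrt (2 * N) - 1 :=
          Real.log_le_sub_one_of_pos (by positivity)
        have h6 : Real.sqrt (2 * N) ≤ 3 / 2 * Real.sqrt N := by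
          rw [Real.sqrt_mul (by norm_num)]
          have h7 : Real.sqrt 2 ≤ 3 / 2 := by
            rw [Real.sqrt_le_left (by norm_num)]
            norm_num
          exact mul_le_mul_of_nonneg_right h7 (Real.sqrt_nonneg _)
        linarith
      calc Real.sqrt N * Real.log w ≤ Real.sqrt N * (3 * Real.sqrt N) :=
            mul_le_mul_of_nonneg_left (hlwN.trans h3) (Real.sqrt_nonneg _)
        _ = 3 * (Real.sqrt N * Real.sqrt N) := by ring
        _ = 3 * N := by rw [Real.mul_self_sqrt hN0.le]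
    -- conclusion
    have c7 : (A.card : ℝ) * Real.log w ≤ N * (2 * (C * (2 * D + 1)) + 3) := by
      calc (A.card : ℝ) * Real.log w ≤ (2 * (N * VW 0 z1) + (z1 : ℝ) ^ (K * K)) * Real.log w :=
            mul_le_mul_of_nonneg_right c1 hlw.le
        _ ≤ (2 * (N * VW 0 z1) + Real.sqrt N) * Real.log w :=
            mul_le_mul_of_nonneg_right (by linarith) hlw.le
        _ = 2 * N * (VW 0 z1 * Real.log w) + Real.sqrt N * Real.log w := by ring
        _ ≤ 2 * N * (C * (2 * D + 1)) + 3 * N :=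
            add_le_add (mul_le_mul_of_nonneg_left c4 (by positivity)) c6
        _ = _ := by ring
    calc (∑ n ∈ A, 1 / (n : ℝ)) * Real.log w ≤ (A.card : ℝ) * (1 / N) * Real.log w :=
          mul_le_mul_of_nonneg_right s1 hlw.le
      _ = ((A.card : ℝ) * Real.log w) / N := by ring
      _ ≤ (N * (2 * (C * (2 * D + 1)) + 3)) / N := by gcongr
      _ = 2 * (C * (2 * D + 1)) + 3 := by field_simp
      _ ≤ _ := by linarith [Nat.cast_nonneg (α := ℝ) D]

end Pool.Agent.N749.QH
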